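import Pool.Agent.W192.HK.Parts

/-!
# H_PROD: product of primitive characters of coprime conductors (helper29)
-/

set_option autoImplicit false
set_option maxHeartbeats 400000

namespace Pool.Agent.W29.HK

open Pool.Agent.W192.HK

theorem find {R : Subring ℂ} (f c q' : Ideal R) (hfc : IsCoprime f c) (α0 : R)
    (h : α0 - 1 ∈ q' ⊔ f) : ∃ α : R, α - 1 ∈ q' ∧ α - α0 ∈ f ∧ α - 1 ∈ c := by
  obtain ⟨x, hx, y, hy, hxy⟩ := Submodule.mem_sup.1 h
  obtain ⟨a, ha, b, hb, hab⟩ := Ideal.isCoprime_iff_exists.1 hfc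
  refine ⟨1 + x * b, ?_, ?_, ?_⟩
  · rw [add_sub_cancel_left]
    exact Ideal.mul_mem_right b q' hx
  · have e : 1 + x * b - α0 = -(x * a) - y := by
      have h1 : b = 1 - a := by rw [← hab]; ring
      have h2 : α0 = 1 + (x + y) := by rw [hxy]; ring
      rw [h1, h2]; ring
    rw [e]
    exact f.sub_mem (f.neg_mem (Ideal.mul_mem_left f x ha)) hy
  · rw [add_sub_cancel_left]
    exact Ideal.mul_mem_left c x hb

theorem ne0 {R : Subring ℂ} (f : Ideal R) (α α0 : R) (hf : f ≠ ⊤) (h : α - α0 ∈ f)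
    (hc : IsCoprime (sp α0) f) : α ≠ 0 := by
  rintro rfl
  have h1 : α0 ∈ f := by
    have h2 := f.neg_mem h
    simpa using h2
  have h2 : sp α0 ≤ f := (Ideal.span_singleton_le_iff_mem _).2 h1
  rw [Ideal.isCoprime_iff_sup_eq, sup_eq_right.2 h2] at hc
  exact hf hc

theorem cop {R : Subring ℂ} (f : Ideal R) (α α0 : R) (h : α - α0 ∈ f)
    (hc : IsCoprime (sp α0) f) : IsCoprime (sp α) f := by
  rw [Ideal.isCoprime_iff_sup_eq, eq_top_iff, ← Ideal.isCoprime_iff_sup_eq.1 hc]
  refine sup_le ?_ le_sup_right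
  rw [Ideal.span_singleton_le_iff_mem]
  have e : α0 = α - (α - α0) := by ring
  rw [e]
  exact Submodule.sub_mem _ (Ideal.mem_sup_left (Ideal.mem_span_singleton_self α))
    (Ideal.mem_sup_right h)

theorem sp1 {R : Subring ℂ} (f : Ideal R) : IsCoprime (sp (1 : R)) f :=
  Ideal.isCoprime_iff_exists.2
    ⟨1, Ideal.mem_span_singleton_self 1, 0, f.zero_mem, add_zero 1⟩

theorem h_prod (_h1 : H_BASIC) (h2 : H_FP) : H_PROD := by
  intro R ω hR n f c ψ χ hψ hχ hfc
  refine ⟨?_, ?_, ?_, ?_, ?_⟩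
  · intro h
    rcases Ideal.mul_eq_bot.1 h with h | h
    · exact hψ.ne h
    · exact hχ.ne h
  · intro I J
    show ψ (I * J) * χ (I * J) = (ψ I * χ I) * (ψ J * χ J)
    rw [hψ.mul, hχ.mul]; ring
  · intro I
    show ψ I * χ I = 0 ↔ _
    rw [mul_eq_zero, hψ.zero, hχ.zero, IsCoprime.mul_right_iff]
    tauto
  · intro α hα h
    show ψ (sp α) * χ (sp α) = _
    have l1 : f * c ≤ f := Ideal.mul_le_left
    have l2 : f * c ≤ c := Ideal.mul_le_right
    have m1 : α - 1 ∈ f := l1 h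
    have m2 : α - 1 ∈ c := l2 h
    rw [hψ.princ α hα m1, hχ.princ α hα m2, pow_zero, mul_one]
  · intro q' hq'
    by_cases hf : q' ≤ f
    · -- then not q' ≤ c
      have hc : ¬ q' ≤ c := by
        intro hc
        have h3 : q' ≤ f * c := by
          rw [Ideal.mul_eq_inf_of_isCoprime hfc]
          exact le_inf hf hc
        exact absurd (lt_of_lt_of_le hq' h3) (lt_irrefl _)
      have hlt : c < q' ⊔ c := by
        refine lt_of_le_of_ne le_sup_right ?_
        intro h
        exact hc (by rw [h]; exact le_sup_left)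
      have hct : c ≠ ⊤ := fun h => by
        rw [h] at hlt; exact absurd hlt (not_top_lt)
      obtain ⟨α0, h0, h3, h4, h5⟩ := hχ.prim _ hlt
      obtain ⟨α, a1, a2, a3⟩ := find c f q' hfc.symm α0 h3
      have hα0 : α ≠ 0 := ne0 c α α0 hct a2 h4
      have hper := (h2 R ω hR 0 c χ hχ hct).2.2.2.2 α α0 a2
      unfold fp at hper
      rw [pow_zero, pow_zero, div_one, div_one] at hper
      rw [pow_zero] at h5
      have hψα := hψ.princ α hα0 a3
      refine ⟨α, hα0, a1, ?_, ?_⟩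
      · rw [IsCoprime.mul_right_iff]
        refine ⟨?_, cop c α α0 a2 h4⟩
        exact cop f α 1 a3 (sp1 f)
      · show ψ (sp α) * χ (sp α) ≠ _
        rw [hψα, hper]
        intro h
        have h6 : (α : ℂ) ^ n ≠ 0 := pow_ne_zero _ (by exact_mod_cast hα0)
        exact h5 (mul_left_cancel₀ h6 (by rw [h, mul_one]))
    · have hlt : f < q' ⊔ f := by
        refine lt_of_le_of_ne le_sup_right ?_
        intro h
        exact hf (by rw [h]; exact le_sup_left)
      have hft : f ≠ ⊤ := fun h => by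
        rw [h] at hlt; exact absurd hlt (not_top_lt)
      obtain ⟨α0, h0, h3, h4, h5⟩ := hψ.prim _ hlt
      obtain ⟨α, a1, a2, a3⟩ := find f c q' hfc α0 h3
      have hα0 : α ≠ 0 := ne0 f α α0 hft a2 h4
      have hper := (h2 R ω hR n f ψ hψ hft).2.2.2.2 α α0 a2
      unfold fp at hper
      have hχα := hχ.princ α hα0 a3
      rw [pow_zero] at hχα
      have hp1 : (α : ℂ) ^ n ≠ 0 := pow_ne_zero _ (by exact_mod_cast hα0)
      have hp2 : (α0 : ℂ) ^ n ≠ 0 := pow_ne_zero _ (by exact_mod_cast h0)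
      refine ⟨α, hα0, a1, ?_, ?_⟩
      · rw [IsCoprime.mul_right_iff]
        refine ⟨cop f α α0 a2 h4, ?_⟩
        exact cop c α 1 a3 (sp1 c)
      · show ψ (sp α) * χ (sp α) ≠ _
        rw [hχα, mul_one]
        intro h
        rw [h, div_self hp1, eq_comm, div_eq_one_iff_eq hp2] at hper
        exact h5 hper

end Pool.Agent.W29.HK
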